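import Pool.Agent.Run7.h568.DG.Iface

/-!
# DG, piece S_geo: the scaling lines are Thurston geodesics
-/

open Real Matrix Filter Topology

noncomputable section

namespace Pool.Agent.Run7.h929.DG

open Run7.h568.DG

theorem len_pos {D : Type} [Fintype D] [DecidableEq D] (T : Tri D) (x : D → ℝ) (w : List Bool)
    (d : D) (h : 2 < tr (T.hol x w d)) : 0 < T.len x w d := by
  unfold Tri.len
  have h1 : 0 ≤ √(tr (T.hol x w d) ^ 2 - 4) := Real.sqrt_nonneg _
  have h2 : 1 < (tr (T.hol x w d) + √(tr (T.hol x w d) ^ 2 - 4)) / 2 := by linarith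
  have h3 := Real.log_pos h2
  linarith

theorem geo (hscal : S_scal) (hcore : S_core) (htr : S_tr) (_hK : S_K) : S_geo := by
  intro D _ _ T A y hy th s t hst
  have hk1 : 1 ≤ exp (t - s) := by
    rw [← Real.exp_zero]
    exact Real.exp_le_exp.mpr (by linarith)
  have hk : exp (t - s) * exp s = exp t := by
    rw [← Real.exp_add]
    congr 1
    ring
  have hle : ∀ w d, T.Closed w d →
      T.len (A.K (exp t) (exp t * th) (exp t • y)) w d / T.len (A.K (exp s) (exp s * th) (exp s • y)) w d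
        ≤ exp (t - s) := by
    intro w d hw
    have h1 := hscal T A (exp s • y) (T.Teich.smul_mem _ hy) (exp s) (Real.exp_pos s)
      (exp s * th) (exp (t - s)) hk1 w d hw
    rw [← mul_assoc, hk, smul_smul, hk] at h1
    have h2 := len_pos T (A.K (exp s) (exp s * th) (exp s • y)) w d (htr T _ w d hw)
    rw [div_le_iff₀ h2]
    exact h1
  have hmem : exp (t - s) ∈ {r : ℝ | ∃ w d, T.Closed w d ∧ T.Simple w d ∧
      r = T.len (A.K (exp t) (exp t * th) (exp t • y)) w d /
        T.len (A.K (exp s) (exp s * th) (exp s • y)) w d} := by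
    obtain ⟨hc1, hc2, hc3⟩ := hcore T A
    refine ⟨[true, false], A.f1, hc1, hc2, ?_⟩
    rw [hc3 (exp t) (Real.exp_pos t) _ _ (T.Teich.smul_mem _ hy),
      hc3 (exp s) (Real.exp_pos s) _ _ (T.Teich.smul_mem _ hy), Real.exp_sub]
  have hsup : sSup {r : ℝ | ∃ w d, T.Closed w d ∧ T.Simple w d ∧
      r = T.len (A.K (exp t) (exp t * th) (exp t • y)) w d /
        T.len (A.K (exp s) (exp s * th) (exp s • y)) w d} = exp (t - s) := by
    apply le_antisymm
    · refine csSup_le ⟨_, hmem⟩ ?_
      rintro r ⟨w, d, hw, -, rfl⟩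
      exact hle w d hw
    · refine le_csSup ⟨exp (t - s), ?_⟩ hmem
      rintro r ⟨w, d, hw, -, rfl⟩
      exact hle w d hw
  unfold Tri.dTh
  rw [hsup, Real.log_exp]

end Pool.Agent.Run7.h929.DG
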