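import Pool.Agent.Run7.h568.DG.Iface

/-!
# DG, piece S_twc: the twist is continuous
-/

open Real Matrix Filter Topology

noncomputable section

namespace Pool.Agent.Run7.h929.DG

open Run7.h568.DG

theorem continuous_Del : Continuous Del := by
  refine Continuous.subtype_mk ?_ _
  refine continuous_matrix fun i j => ?_
  fin_cases i <;> fin_cases j <;> simp <;> fun_prop

theorem continuous_step (b : Bool) : Continuous (step b) :=
  continuous_const.mul continuous_Del

theorem continuous_hol {D : Type} [Fintype D] [DecidableEq D] (T : Tri D) (w : List Bool) :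
    ∀ d : D, Continuous (fun x : D → ℝ => T.hol x w d) := by
  induction w with
  | nil =>
    intro d
    exact continuous_const
  | cons b w ih =>
    intro d
    change Continuous (fun x : D → ℝ => step b (x (T.turn b d)) * T.hol x w (T.nxt b d))
    exact ((continuous_step b).comp (continuous_apply _)).mul (ih _)

theorem continuous_Pd {D : Type} [Fintype D] [DecidableEq D] (T : Tri D) (t : TD T) (d : D)
    (n : ℕ) : Continuous (fun x : D → ℝ => t.Pd x d n) := by
  unfold TD.Pd
  refine continuous_list_prod _ fun i _ => ?_
  exact (continuous_hol T _ _).zpow _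

theorem continuous_entry (i j : Fin 2) : Continuous (fun g : SL => g.1 i j) :=
  (continuous_apply_apply i j).comp continuous_subtype_val

theorem twc (hH00 : S_H00) : S_twc := by
  intro D _ _ T t
  have hL : ∀ d, Continuous (fun x : T.Teich => t.Lam (x : D → ℝ) d) := by
    intro d
    unfold TD.Lam
    refine Continuous.log ?_ ?_
    · exact (continuous_entry 0 0).comp ((continuous_Pd T t d _).comp continuous_subtype_val)
    · intro x
      exact (hH00 T t x x.2.1 d).1.ne'
  refine continuous_pi fun d => ?_
  change Continuous (fun x : T.Teich => (x : D → ℝ) d + t.Lam x (T.sg d) - t.Lam x (T.sg (T.sg d)) +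
    t.Lam x (T.sg (T.io d)) - t.Lam x (T.sg (T.sg (T.io d))))
  exact (((((continuous_apply d).comp continuous_subtype_val).add (hL _)).sub (hL _)).add
    (hL _)).sub (hL _)

end Pool.Agent.Run7.h929.DG
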