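import Pool.Agent.Run7.h568.DG.Iface

/-!
# DG, piece S_twT: the twisted surface is a point of Teichmueller space
-/

open Real Matrix Filter Topology

noncomputable section

namespace Pool.Agent.Run7.h929.DG

open Run7.h568.DG

theorem twT (hH00 : S_H00) (hcob : S_cob) : S_twT := by
  intro D _ _ T t x hx
  have hLam : ∀ d, t.Lam x (T.io d) = t.Lam x d := by
    intro d
    unfold TD.Lam
    rw [(hH00 T t x hx.1 d).2]
  obtain ⟨hio, q, hq⟩ := (hcob T x).mp hx
  rw [hcob T]
  refine ⟨?_, fun d => q d + t.Lam x d + t.Lam x (T.sg (T.sg d)) - t.Lam x (T.sg d), ?_⟩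
  · intro d
    unfold TD.tw
    rw [hio d, T.io_io]
    ring
  · intro d
    unfold TD.tw
    beta_reduce
    rw [T.sg3, hLam d]
    nth_rewrite 1 [hq d]
    ring

end Pool.Agent.Run7.h929.DG
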